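import Mathlib

/-!
# Minimal strongly biconnected digraphs

A minimal strongly biconnected digraph on `n ≥ 3` vertices has at most `2 n - 3` arcs, and this is
sharp for every `n ≥ 3`. In particular it has at most `2 n` arcs.

The proof builds a spanning strongly biconnected subdigraph with at most `2 n - 3` arcs by adding
open ears.
-/

set_option autoImplicit false

namespace Pool.Agent.Results.MP_5e4462_co.Sharp

open Relation

/-- The underlying undirected graph of the digraph with arc set `A`. -/
def underlying {V : Type} (A : Finset (V × V)) : SimpleGraph V :=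
  SimpleGraph.fromRel fun u w => (u, w) ∈ A

/-- Every vertex can be reached from every vertex along arcs. -/
def StronglyConnected {V : Type} (A : Finset (V × V)) : Prop :=
  ∀ u w, ReflTransGen (fun x y => (x, y) ∈ A) u w

/-- No vertex disconnects the graph: for each vertex `w` the graph without `w` is connected. -/
def NoArticulation {V : Type} (G : SimpleGraph V) : Prop :=
  ∀ w, (G.induce {w}ᶜ).Preconnected

/-- The digraph is strongly connected, its underlying graph has no articulation point. -/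
def StronglyBiconnected {V : Type} (A : Finset (V × V)) : Prop :=
  StronglyConnected A ∧ NoArticulation (underlying A)

/-- `A` is the arc set of a minimal strongly biconnected digraph (without loops). -/
structure MinimalStronglyBiconnected {V : Type} [DecidableEq V] (A : Finset (V × V)) : Prop where
  loopless : ∀ v, (v, v) ∉ A
  biconnected : StronglyBiconnected A
  minimal : ∀ e ∈ A, ¬ StronglyBiconnected (A.erase e)

/-! ### Ears -/

section

variable {V : Type}

/-- Two vertices different from `z` joined by an arc. -/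
def adj (A : Finset (V × V)) (z x y : V) : Prop := ((x, y) ∈ A ∨ (y, x) ∈ A) ∧ x ≠ z ∧ y ≠ z

/-- The part `S` is connected, and stays connected without `z`. -/
def Bic (S : Finset V) (A : Finset (V × V)) : Prop :=
  ∀ z, ∀ a ∈ S, ∀ b ∈ S, a ≠ z → b ≠ z → ReflTransGen (adj A z) a b

lemma adj_symm (A : Finset (V × V)) (z : V) {x y : V} (h : adj A z x y) : adj A z y x :=
  ⟨h.1.symm, h.2.2, h.2.1⟩

lemma rtg_symm (A : Finset (V × V)) (z : V) {x y : V} (h : ReflTransGen (adj A z) x y) :
    ReflTransGen (adj A z) y x := by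
  induction h with
  | refl => exact .refl
  | tail _ h ih => exact .head (adj_symm A z h) ih

lemma adj_mono {A B : Finset (V × V)} (h : A ⊆ B) (z : V) {x y : V} (h1 : adj A z x y) :
    adj B z x y := ⟨h1.1.imp (fun h2 => h h2) (fun h2 => h h2), h1.2⟩

/-- `p` is an ear of length `k + 1` from `u` to `w` with the `k` inner vertices outside `S` -/
structure Ear (E : Finset (V × V)) (S : Finset V) (u w : V) (k : ℕ) (p : ℕ → V) : Prop where
  fst : p 0 = u
  lst : p (k + 1) = w
  arc : ∀ i ≤ k, (p i, p (i + 1)) ∈ E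
  out : ∀ i, 1 ≤ i → i ≤ k → p i ∉ S

lemma Ear.inj {E : Finset (V × V)} {S : Finset V} {u w : V}
    (h : ∃ k, 1 ≤ k ∧ ∃ p, Ear E S u w k p) :
    ∃ k, 1 ≤ k ∧ ∃ p, Ear E S u w k p ∧ ∀ i j, 1 ≤ i → i ≤ k → 1 ≤ j → j ≤ k → p i = p j → i = j := by
  classical
  have hk := Nat.find_spec h
  have hmin := fun k => Nat.find_min h (m := k)
  set k := Nat.find h
  obtain ⟨hk1, p, hp⟩ := hk
  refine ⟨k, hk1, p, hp, ?_⟩
  have key : ∀ i j, 1 ≤ i → j ≤ k → i < j → p i ≠ p j := by
    intro i j hi hj hij he
    refine hmin (k - (j - i)) (by omega) ⟨by omega, fun n => if n ≤ i then p n else p (n + (j - i)), ?_⟩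
    constructor
    · simp [hp.fst]
    · have : ¬ (k - (j - i) + 1 ≤ i) := by omega
      simp only [this, if_false]
      rw [← hp.lst]
      congr 1
      omega
    · intro n hn
      by_cases h1 : n + 1 ≤ i
      · have h2 : n ≤ i := by omega
        simp only [h1, h2, if_true]
        exact hp.arc n (by omega)
      · by_cases h2 : n ≤ i
        · have h3 : n = i := by omega
          subst h3
          simp only [h1, le_refl, if_true, if_false]
          rw [he]
          have := hp.arc (n + (j - n)) (by omega)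
          have h4 : n + 1 + (j - n) = j + 1 := by omega
          have h5 : n + (j - n) = j := by omega
          rw [h4]
          rw [h5] at this
          exact this
        · simp only [h1, h2, if_false]
          have := hp.arc (n + (j - i)) (by omega)
          have h4 : n + 1 + (j - i) = n + (j - i) + 1 := by omega
          rw [h4]
          exact this
    · intro n hn1 hn2
      by_cases h2 : n ≤ i
      · simp only [h2, if_true]
        exact hp.out n hn1 (by omega)
      · simp only [h2, if_false]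
        exact hp.out _ (by omega) (by omega)
  intro i j hi hi' hj hj' he
  rcases lt_trichotomy i j with h1 | h1 | h1
  · exact absurd he (key i j hi hj' h1)
  · exact h1
  · exact absurd he.symm (key j i hj hi' h1)

/-- A walk as a sequence. -/
lemma exists_walk {r : V → V → Prop} {x y : V} (h : ReflTransGen r x y) :
    ∃ (m : ℕ) (q : ℕ → V), q 0 = x ∧ q m = y ∧ ∀ i < m, r (q i) (q (i + 1)) := by
  induction h with
  | refl => exact ⟨0, fun _ => x, rfl, rfl, fun i hi => absurd hi (Nat.not_lt_zero i)⟩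
  | @tail b c _ h ih =>
    obtain ⟨m, q, h0, hm, hq⟩ := ih
    refine ⟨m + 1, fun n => if n ≤ m then q n else c, ?_, ?_, ?_⟩
    · simp [h0]
    · simp
    · intro i hi
      by_cases h1 : i + 1 ≤ m
      · have h2 : i ≤ m := by omega
        simp only [h1, h2, if_true]
        exact hq i (by omega)
      · have h2 : i = m := by omega
        subst h2
        simp only [le_refl, if_true, h1, if_false, hm]
        exact h

variable [DecidableEq V]

/-- Adding an ear. -/
lemma add_ear {E A : Finset (V × V)} {S : Finset V} {u w : V} {k : ℕ} {p : ℕ → V}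
    (hk : 1 ≤ k) (hp : Ear E S u w k p)
    (hinj : ∀ i j, 1 ≤ i → i ≤ k → 1 ≤ j → j ≤ k → p i = p j → i = j)
    (hu : u ∈ S) (hw : w ∈ S) (huw : u ≠ w) (hA : A ⊆ E) (hB : Bic S A)
    (hS : ∀ a ∈ S, ∀ b ∈ S, ReflTransGen (fun x y => (x, y) ∈ A ∨ (x = u ∧ y = w)) a b)
    (hc : A.card + 3 ≤ 2 * S.card) :
    ∃ (S' : Finset V) (A' : Finset (V × V)), S ⊂ S' ∧ A' ⊆ E ∧ Bic S' A' ∧
      (∀ a ∈ S', ∀ b ∈ S', ReflTransGen (fun x y => (x, y) ∈ A') a b) ∧
      A'.card + 3 ≤ 2 * S'.card := by
  classical
  set X : Finset V := (Finset.Icc 1 k).image p with hX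
  set P : Finset (V × V) := (Finset.range (k + 1)).image fun i => (p i, p (i + 1)) with hP
  have hXc : X.card = k := by
    rw [hX, Finset.card_image_of_injOn, Nat.card_Icc]
    · omega
    · intro i hi j hj hij
      simp only [Finset.coe_Icc, Set.mem_Icc] at hi hj
      exact hinj i j hi.1 hi.2 hj.1 hj.2 hij
  have hPc : P.card ≤ k + 1 := by
    refine Finset.card_image_le.trans ?_
    rw [Finset.card_range]
  have hdis : Disjoint S X := by
    rw [Finset.disjoint_left]
    intro a ha hb
    rw [hX, Finset.mem_image] at hb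
    obtain ⟨i, hi, rfl⟩ := hb
    rw [Finset.mem_Icc] at hi
    exact hp.out i hi.1 hi.2 ha
  have hPE : P ⊆ E := by
    intro e he
    rw [hP, Finset.mem_image] at he
    obtain ⟨i, hi, rfl⟩ := he
    rw [Finset.mem_range] at hi
    exact hp.arc i (by omega)
  have hPm : ∀ i ≤ k, (p i, p (i + 1)) ∈ A ∪ P := by
    intro i hi
    refine Finset.mem_union_right _ ?_
    rw [hP, Finset.mem_image]
    exact ⟨i, Finset.mem_range.2 (by omega), rfl⟩
  -- directed paths along the ear
  have hdir : ∀ d i, i + d ≤ k + 1 →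
      ReflTransGen (fun x y => (x, y) ∈ A ∪ P) (p i) (p (i + d)) := by
    intro d
    induction d with
    | zero => intro i _; exact .refl
    | succ d ih =>
      intro i hi
      exact (ih i (by omega)).tail (hPm (i + d) (by omega))
  have hdir' : ∀ i j, i ≤ j → j ≤ k + 1 →
      ReflTransGen (fun x y => (x, y) ∈ A ∪ P) (p i) (p j) := by
    intro i j hij hj
    have := hdir (j - i) i (by omega)
    rwa [Nat.add_sub_cancel' hij] at this
  -- undirected paths along the ear that avoid `z`
  have hund : ∀ z d i, i + d ≤ k + 1 → (∀ j, i ≤ j → j ≤ i + d → p j ≠ z) →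
      ReflTransGen (adj (A ∪ P) z) (p i) (p (i + d)) := by
    intro z d
    induction d with
    | zero => intro i _ _; exact .refl
    | succ d ih =>
      intro i hi hz
      refine (ih i (by omega) fun j h1 h2 => hz j h1 (by omega)).tail ?_
      exact ⟨Or.inl (hPm (i + d) (by omega)), hz _ (by omega) (by omega), hz _ (by omega) (by omega)⟩
  have hund' : ∀ z i j, i ≤ j → j ≤ k + 1 → (∀ l, i ≤ l → l ≤ j → p l ≠ z) →
      ReflTransGen (adj (A ∪ P) z) (p i) (p j) := by
    intro z i j hij hj hz
    have := hund z (j - i) i (by omega) fun l h1 h2 => hz l h1 (by omega)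
    rwa [Nat.add_sub_cancel' hij] at this
  refine ⟨S ∪ X, A ∪ P, ?_, ?_, ?_, ?_, ?_⟩
  · rw [Finset.ssubset_iff_subset_ne]
    refine ⟨Finset.subset_union_left, fun he => ?_⟩
    have h1 : (S ∪ X).card = S.card + X.card := Finset.card_union_of_disjoint hdis
    rw [← he] at h1
    omega
  · exact Finset.union_subset hA hPE
  · intro z
    -- every vertex is connected to `S`
    have hred : ∀ a ∈ S ∪ X, a ≠ z → ∃ a' ∈ S, a' ≠ z ∧ ReflTransGen (adj (A ∪ P) z) a a' := by
      intro a ha haz
      rw [Finset.mem_union] at ha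
      rcases ha with ha | ha
      · exact ⟨a, ha, haz, .refl⟩
      · rw [hX, Finset.mem_image] at ha
        obtain ⟨i, hi, rfl⟩ := ha
        rw [Finset.mem_Icc] at hi
        by_cases h1 : ∃ j, j < i ∧ p j = z
        · obtain ⟨j, hj, hjz⟩ := h1
          have hav : ∀ l, i ≤ l → l ≤ k + 1 → p l ≠ z := by
            intro l hl1 hl2 hlz
            rw [← hjz] at hlz
            rcases Nat.eq_zero_or_pos j with h2 | h2
            · subst h2
              rw [hp.fst] at hlz
              rcases Nat.lt_or_ge l (k + 1) with h3 | h3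
              · exact hp.out l (by omega) (by omega) (hlz ▸ hu)
              · have h4 : l = k + 1 := by omega
                rw [h4, hp.lst] at hlz
                exact huw hlz.symm
            · rcases Nat.lt_or_ge l (k + 1) with h3 | h3
              · have := hinj l j (by omega) (by omega) (by omega) (by omega) hlz
                omega
              · have h4 : l = k + 1 := by omega
                rw [h4, hp.lst] at hlz
                exact hp.out j (by omega) (by omega) (hlz ▸ hw)
          refine ⟨w, hw, ?_, ?_⟩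
          · have := hav (k + 1) (by omega) (le_refl _)
            rwa [hp.lst] at this
          · have := hund' z i (k + 1) (by omega) (le_refl _) hav
            rwa [hp.lst] at this
        · push Not at h1
          have hav : ∀ l, 0 ≤ l → l ≤ i → p l ≠ z := by
            intro l _ hl
            rcases Nat.lt_or_ge l i with h2 | h2
            · exact h1 l h2
            · have : l = i := by omega
              rw [this]
              exact haz
          refine ⟨u, hu, ?_, ?_⟩
          · have := hav 0 (le_refl _) (by omega)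
            rwa [hp.fst] at this
          · have := hund' z 0 i (by omega) (by omega) hav
            rw [hp.fst] at this
            exact rtg_symm _ _ this
    intro a ha b hb haz hbz
    obtain ⟨a', ha', haz', h1⟩ := hred a ha haz
    obtain ⟨b', hb', hbz', h2⟩ := hred b hb hbz
    have h3 := hB z a' ha' b' hb' haz' hbz'
    have h4 : adj A z ≤ adj (A ∪ P) z := fun x y h => adj_mono Finset.subset_union_left z h
    exact (h1.trans (ReflTransGen.mono h4 _ _ h3)).trans (rtg_symm _ _ h2)
  · have huw' : ReflTransGen (fun x y => (x, y) ∈ A ∪ P) u w := by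
      have := hdir' 0 (k + 1) (by omega) (le_refl _)
      rwa [hp.fst, hp.lst] at this
    have hSS : ∀ a ∈ S, ∀ b ∈ S, ReflTransGen (fun x y => (x, y) ∈ A ∪ P) a b := by
      intro a ha b hb
      have h1 := hS a ha b hb
      clear hb ha
      induction h1 with
      | refl => exact .refl
      | tail _ h2 ih =>
        rcases h2 with h2 | ⟨rfl, rfl⟩
        · exact ih.tail (Finset.mem_union_left _ h2)
        · exact ih.trans huw'
    have hto : ∀ a ∈ S ∪ X, (∃ a' ∈ S, ReflTransGen (fun x y => (x, y) ∈ A ∪ P) a a') ∧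
        ∃ a' ∈ S, ReflTransGen (fun x y => (x, y) ∈ A ∪ P) a' a := by
      intro a ha
      rw [Finset.mem_union] at ha
      rcases ha with ha | ha
      · exact ⟨⟨a, ha, .refl⟩, ⟨a, ha, .refl⟩⟩
      · rw [hX, Finset.mem_image] at ha
        obtain ⟨i, hi, rfl⟩ := ha
        rw [Finset.mem_Icc] at hi
        refine ⟨⟨w, hw, ?_⟩, ⟨u, hu, ?_⟩⟩
        · have := hdir' i (k + 1) (by omega) (le_refl _)
          rwa [hp.lst] at this
        · have := hdir' 0 i (by omega) (by omega)
          rwa [hp.fst] at this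
    intro a ha b hb
    obtain ⟨a', ha', h1⟩ := (hto a ha).1
    obtain ⟨b', hb', h2⟩ := (hto b hb).2
    exact (h1.trans (hSS a' ha' b' hb')).trans h2
  · have h1 : (S ∪ X).card = S.card + X.card := Finset.card_union_of_disjoint hdis
    have h2 := Finset.card_union_le A P
    omega

/-- Either there is an open ear, or one vertex of `S` separates. -/
lemma exists_ear {E : Finset (V × V)} {S : Finset V}
    (hE : ∀ u w, ReflTransGen (fun x y => (x, y) ∈ E) u w)
    (hB : ∀ z a b, a ≠ z → b ≠ z → ReflTransGen (adj E z) a b)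
    (h2 : 2 ≤ S.card) {x0 : V} (hx0 : x0 ∉ S) :
    ∃ u ∈ S, ∃ w ∈ S, u ≠ w ∧ ∃ k, 1 ≤ k ∧ ∃ p, Ear E S u w k p := by
  classical
  set r : V → V → Prop := fun x y => (x, y) ∈ E ∧ x ∉ S ∧ y ∉ S with hr
  have hin : ∀ x, x ∉ S → ∃ s ∈ S, ∃ y, y ∉ S ∧ (s, y) ∈ E ∧ ReflTransGen r y x := by
    obtain ⟨s0, hs0⟩ : S.Nonempty := Finset.card_pos.1 (by omega)
    intro x hx
    have h := hE s0 x
    revert hx
    induction h with
    | refl => intro hx; exact absurd hs0 hx
    | @tail b c _ h ih =>
      intro hc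
      by_cases hb : b ∈ S
      · exact ⟨b, hb, c, hc, h, .refl⟩
      · obtain ⟨s, hs, y, hy, hsy, hyb⟩ := ih hb
        exact ⟨s, hs, y, hy, hsy, hyb.tail ⟨h, hb, hc⟩⟩
  have hout : ∀ x, x ∉ S → ∃ t ∈ S, ∃ y, y ∉ S ∧ (y, t) ∈ E ∧ ReflTransGen r x y := by
    obtain ⟨s0, hs0⟩ : S.Nonempty := Finset.card_pos.1 (by omega)
    intro x hx
    have h := hE x s0
    revert hx
    induction h using ReflTransGen.head_induction_on with
    | refl => intro hx; exact absurd hs0 hx
    | @head b c h _ ih =>
      intro hb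
      by_cases hc : c ∈ S
      · exact ⟨c, hc, b, hb, h, .refl⟩
      · obtain ⟨t, ht, y, hy, hyt, hcy⟩ := ih hc
        exact ⟨t, ht, y, hy, hyt, hcy.head ⟨h, hb, hc⟩⟩
  by_contra hno
  -- no open ear: entry and exit vertices agree
  have hsame : ∀ x s t y y', s ∈ S → t ∈ S → y ∉ S → y' ∉ S → (s, y) ∈ E → ReflTransGen r y x →
      (y', t) ∈ E → ReflTransGen r x y' → s = t := by
    intro x s t y y' hs ht hy hy' hsy hyx hyt hxy
    by_contra hst
    apply hno
    refine ⟨s, hs, t, ht, hst, ?_⟩
    obtain ⟨m, q, h0, hm, hq⟩ := exists_walk (hyx.trans hxy)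
    refine ⟨m + 1, by omega, fun n => if n = 0 then s else if n ≤ m + 1 then q (n - 1) else t, ?_⟩
    constructor
    · simp
    · have h2 : ¬ (m + 1 + 1 ≤ m + 1) := by omega
      simp [h2]
    · intro i hi
      rcases Nat.eq_zero_or_pos i with h1 | h1
      · subst h1
        have h3 : 0 + 1 ≤ m + 1 := by omega
        simp only [if_true, Nat.zero_add, one_ne_zero, if_false]
        rw [if_pos (by omega)]
        simpa [h0] using hsy
      · have h3 : ¬ i = 0 := by omega
        have h4 : ¬ i + 1 = 0 := by omega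
        simp only [h3, h4, hi, if_true, if_false]
        by_cases h5 : i + 1 ≤ m + 1
        · rw [if_pos h5]
          have := (hq (i - 1) (by omega)).1
          have h6 : i - 1 + 1 = i + 1 - 1 := by omega
          rwa [h6] at this
        · rw [if_neg h5]
          have h6 : i - 1 = m := by omega
          rw [h6, hm]
          exact hyt
    · intro i h1 h2
      have h3 : ¬ i = 0 := by omega
      simp only [h3, h2, if_true, if_false]
      rcases Nat.lt_or_ge (i - 1) m with h4 | h4
      · exact (hq _ h4).2.1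
      · have h5 : i - 1 = m := by omega
        rw [h5, hm]
        exact hy'
  obtain ⟨z, hz, y0, hy0, hzy0, hy0x⟩ := hin x0 hx0
  obtain ⟨s1, hs1, hs1z⟩ : ∃ s1 ∈ S, s1 ≠ z := by
    by_contra hcon
    push Not at hcon
    have : S ⊆ {z} := fun s hs => Finset.mem_singleton.2 (hcon s hs)
    have := Finset.card_le_card this
    rw [Finset.card_singleton] at this
    omega
  have hx0z : x0 ≠ z := fun h => hx0 (h ▸ hz)
  have hpath := hB z x0 s1 hx0z hs1z
  have hcl : ∀ y, ReflTransGen (adj E z) x0 y →
      y ∉ S ∧ ∃ y1, y1 ∉ S ∧ (z, y1) ∈ E ∧ ReflTransGen r y1 y := by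
    intro y hy
    induction hy with
    | refl => exact ⟨hx0, y0, hy0, hzy0, hy0x⟩
    | @tail b c _ h ih =>
      obtain ⟨hb, y1, hy1, hzy1, hy1b⟩ := ih
      obtain ⟨harc, hbz, hcz⟩ := h
      obtain ⟨t, ht, y2, hy2, hy2t, hby2⟩ := hout b hb
      have htz : z = t := hsame b z t y1 y2 hz ht hy1 hy2 hzy1 hy1b hy2t hby2
      by_cases hc : c ∈ S
      · exfalso
        rcases harc with h1 | h1
        · exact hcz (hsame b z c y1 b hz hc hy1 hb hzy1 hy1b h1 .refl).symm
        · have := hsame b c t b y2 hc ht hb hy2 h1 .refl hy2t hby2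
          exact hcz (this.trans htz.symm)
      · refine ⟨hc, ?_⟩
        rcases harc with h1 | h1
        · exact ⟨y1, hy1, hzy1, hy1b.tail ⟨h1, hb, hc⟩⟩
        · obtain ⟨s, hs, y3, hy3, hsy3, hy3c⟩ := hin c hc
          have hsz : s = t := hsame c s t y3 y2 hs ht hy3 hy2 hsy3 hy3c hy2t
            (hby2.head ⟨h1, hc, hb⟩)
          have : s = z := hsz.trans htz.symm
          subst this
          exact ⟨y3, hy3, hsy3, hy3c⟩
  exact (hcl s1 hpath).1 hs1

/-- The first ear on an arc. -/
lemma start {E : Finset (V × V)} [Fintype V]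
    (hE : ∀ u w, ReflTransGen (fun x y => (x, y) ∈ E) u w)
    (hB : ∀ z a b, a ≠ z → b ≠ z → ReflTransGen (adj E z) a b)
    (hl : ∀ v, (v, v) ∉ E) (h3 : 3 ≤ Fintype.card V) :
    ∃ (S' : Finset V) (A' : Finset (V × V)), 2 ≤ S'.card ∧ A' ⊆ E ∧ Bic S' A' ∧
      (∀ a ∈ S', ∀ b ∈ S', ReflTransGen (fun x y => (x, y) ∈ A') a b) ∧
      A'.card + 3 ≤ 2 * S'.card := by
  classical
  -- an arc
  obtain ⟨w, u, hwu⟩ : ∃ w u, (w, u) ∈ E := by
    obtain ⟨a, b, hab⟩ := Fintype.one_lt_card_iff.1 (show 1 < Fintype.card V by omega)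
    rcases ReflTransGen.cases_head (hE a b) with h | ⟨c, h, _⟩
    · exact absurd h hab
    · exact ⟨a, c, h⟩
  have hne : ∀ {w u}, (w, u) ∈ E → u ≠ w := fun h he => hl _ (he ▸ h)
  have main : ∀ u w, (w, u) ∈ E → (∃ k, 1 ≤ k ∧ ∃ p, Ear E {u, w} u w k p) →
      ∃ (S' : Finset V) (A' : Finset (V × V)), 2 ≤ S'.card ∧ A' ⊆ E ∧ Bic S' A' ∧
      (∀ a ∈ S', ∀ b ∈ S', ReflTransGen (fun x y => (x, y) ∈ A') a b) ∧
      A'.card + 3 ≤ 2 * S'.card := by
    intro u w hwu hear
    obtain ⟨k, hk, p, hp, hinj⟩ := Ear.inj hear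
    have huw : u ≠ w := hne hwu
    have hcard : ({u, w} : Finset V).card = 2 := Finset.card_pair huw
    have hbic : Bic {u, w} {(w, u)} := by
      intro z a ha b hb haz hbz
      simp only [Finset.mem_insert, Finset.mem_singleton] at ha hb
      rcases ha with rfl | rfl <;> rcases hb with rfl | rfl
      · exact .refl
      · exact .single ⟨Or.inr (by simp), haz, hbz⟩
      · exact .single ⟨Or.inl (by simp), haz, hbz⟩
      · exact .refl
    have hsc : ∀ a ∈ ({u, w} : Finset V), ∀ b ∈ ({u, w} : Finset V),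
        ReflTransGen (fun x y => (x, y) ∈ ({(w, u)} : Finset (V × V)) ∨ (x = u ∧ y = w)) a b := by
      intro a ha b hb
      simp only [Finset.mem_insert, Finset.mem_singleton] at ha hb
      rcases ha with rfl | rfl <;> rcases hb with rfl | rfl
      · exact .refl
      · exact .single (Or.inr ⟨rfl, rfl⟩)
      · exact .single (Or.inl (by simp))
      · exact .refl
    obtain ⟨S', A', h1, h2, h4, h5, h6⟩ := add_ear (A := {(w, u)}) hk hp hinj (by simp) (by simp)
      huw (by simpa using hwu) hbic hsc (by rw [hcard]; simp)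
    exact ⟨S', A', hcard ▸ (Finset.card_le_card h1.1), h2, h4, h5, h6⟩
  by_cases huw : (u, w) ∈ E
  · -- both arcs
    have huw' : u ≠ w := hne hwu
    have hcard : ({u, w} : Finset V).card = 2 := Finset.card_pair huw'
    obtain ⟨x0, hx0⟩ : ∃ x0, x0 ∉ ({u, w} : Finset V) := by
      by_contra hcon
      push Not at hcon
      have : Finset.univ ⊆ ({u, w} : Finset V) := fun x _ => hcon x
      have := Finset.card_le_card this
      rw [hcard, Finset.card_univ] at this
      omega
    obtain ⟨a, ha, b, hb, hab, hear⟩ := exists_ear hE hB hcard.ge hx0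
    simp only [Finset.mem_insert, Finset.mem_singleton] at ha hb
    rcases ha with rfl | rfl <;> rcases hb with rfl | rfl
    · exact absurd rfl hab
    · exact main _ _ hwu hear
    · rw [Finset.pair_comm] at hear
      exact main _ _ huw hear
    · exact absurd rfl hab
  · -- a shortest path from `u` to `w`
    refine main u w hwu ?_
    have hex : ∃ m, ∃ q : ℕ → V, q 0 = u ∧ q m = w ∧ ∀ i < m, (q i, q (i + 1)) ∈ E := by
      obtain ⟨m, q, h⟩ := exists_walk (hE u w)
      exact ⟨m, q, h⟩
    have hs := Nat.find_spec hex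
    have hmin := fun k => Nat.find_min hex (m := k)
    set m := Nat.find hex
    obtain ⟨q, h0, hm, hq⟩ := hs
    have huw' : u ≠ w := hne hwu
    have hm0 : m ≠ 0 := by
      intro h
      rw [h, h0] at hm
      exact huw' hm
    have hm1 : m ≠ 1 := by
      intro h
      rw [h] at hm
      have := hq 0 (by omega)
      rw [h0, Nat.zero_add, hm] at this
      exact huw this
    refine ⟨m - 1, by omega, q, h0, ?_, ?_, ?_⟩
    · rw [Nat.sub_add_cancel (by omega), hm]
    · intro i hi
      exact hq i (by omega)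
    · intro i h1 h2 hmem
      simp only [Finset.mem_insert, Finset.mem_singleton] at hmem
      rcases hmem with h | h
      · refine hmin (m - i) (by omega) ⟨fun n => q (n + i), by simpa using h, ?_, ?_⟩
        · simp only
          rw [Nat.sub_add_cancel (by omega), hm]
        · intro n hn
          have := hq (n + i) (by omega)
          have h5 : n + 1 + i = n + i + 1 := by omega
          simp only [h5]
          exact this
      · exact hmin i (by omega) ⟨q, h0, h, fun n hn => hq n (by omega)⟩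

/-- A spanning subdigraph with few arcs. -/
lemma spanning {E : Finset (V × V)} [Fintype V]
    (hE : ∀ u w, ReflTransGen (fun x y => (x, y) ∈ E) u w)
    (hB : ∀ z a b, a ≠ z → b ≠ z → ReflTransGen (adj E z) a b)
    (hl : ∀ v, (v, v) ∉ E) (h3 : 3 ≤ Fintype.card V) :
    ∃ A' : Finset (V × V), A' ⊆ E ∧ (∀ z a b, a ≠ z → b ≠ z → ReflTransGen (adj A' z) a b) ∧
      (∀ a b, ReflTransGen (fun x y => (x, y) ∈ A') a b) ∧
      A'.card + 3 ≤ 2 * Fintype.card V := by
  classical
  let Q : Finset V → Prop := fun S => 2 ≤ S.card ∧ ∃ A' : Finset (V × V), A' ⊆ E ∧ Bic S A' ∧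
      (∀ a ∈ S, ∀ b ∈ S, ReflTransGen (fun x y => (x, y) ∈ A') a b) ∧
      A'.card + 3 ≤ 2 * S.card
  obtain ⟨S0, A0, h1, h2, h4, h5, h6⟩ := start hE hB hl h3
  obtain ⟨S, hS, hmax⟩ := (Finset.univ.filter Q).exists_max_image Finset.card
    ⟨S0, by simp only [Finset.mem_filter, Finset.mem_univ, true_and]; exact ⟨h1, A0, h2, h4, h5, h6⟩⟩
  simp only [Finset.mem_filter, Finset.mem_univ, true_and] at hS hmax
  obtain ⟨hS2, A, hAE, hBic, hSC, hcard⟩ := hS
  by_cases hall : ∀ x, x ∈ S
  · have hSu : S = Finset.univ := Finset.eq_univ_iff_forall.2 hall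
    subst hSu
    rw [Finset.card_univ] at hcard
    exact ⟨A, hAE, fun z a b haz hbz => hBic z a (Finset.mem_univ _) b (Finset.mem_univ _) haz hbz,
      fun a b => hSC a (Finset.mem_univ _) b (Finset.mem_univ _), hcard⟩
  · exfalso
    push Not at hall
    obtain ⟨x0, hx0⟩ := hall
    obtain ⟨u, hu, w, hw, huw, hear⟩ := exists_ear hE hB hS2 hx0
    obtain ⟨k, hk, p, hp, hinj⟩ := Ear.inj hear
    obtain ⟨S', A', g1, g2, g4, g5, g6⟩ := add_ear hk hp hinj hu hw huw hAE hBic
      (fun a ha b hb => by
        have h8 : (fun x y => (x, y) ∈ A) ≤ (fun x y => (x, y) ∈ A ∨ (x = u ∧ y = w)) :=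
          fun x y h => Or.inl h
        exact ReflTransGen.mono h8 _ _ (hSC a ha b hb)) hcard
    have h7 := Finset.card_lt_card g1
    have := hmax S' ⟨by omega, A', g2, g4, g5, g6⟩
    omega

/-! ### Translation -/

omit [DecidableEq V] in
lemma underlying_adj {A : Finset (V × V)} (hl : ∀ v, (v, v) ∉ A) (x y : V) :
    (underlying A).Adj x y ↔ ((x, y) ∈ A ∨ (y, x) ∈ A) := by
  unfold underlying
  rw [SimpleGraph.fromRel_adj]
  constructor
  · exact fun h => h.2
  · intro h
    refine ⟨?_, h⟩
    rintro rfl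
    rcases h with h | h <;> exact hl _ h

omit [DecidableEq V] in
lemma noArt_iff {A : Finset (V × V)} (hl : ∀ v, (v, v) ∉ A) :
    NoArticulation (underlying A) ↔ ∀ z a b, a ≠ z → b ≠ z → ReflTransGen (adj A z) a b := by
  unfold NoArticulation
  constructor
  · intro h z a b haz hbz
    have h1 := h z ⟨a, haz⟩ ⟨b, hbz⟩
    rw [SimpleGraph.reachable_iff_reflTransGen] at h1
    refine ReflTransGen.lift (fun x : ({z}ᶜ : Set V) => (x : V)) ?_ _ _ h1
    intro x y hxy
    rw [SimpleGraph.comap_adj] at hxy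
    exact ⟨(underlying_adj hl _ _).1 hxy, x.2, y.2⟩
  · intro h z a b
    have h1 := h z a b a.2 b.2
    rw [SimpleGraph.reachable_iff_reflTransGen]
    have key : ∀ c : V, ReflTransGen (adj A z) a c → ∀ hc : c ≠ z,
        ReflTransGen ((underlying A).induce {z}ᶜ).Adj a ⟨c, hc⟩ := by
      intro c hc
      induction hc with
      | refl => intro _; exact .refl
      | @tail b c _ h2 ih =>
        intro hc
        refine (ih h2.2.1).tail ?_
        rw [SimpleGraph.comap_adj]
        exact (underlying_adj hl _ _).2 h2.1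
    exact key b h1 b.2

lemma bound (A : Finset (V × V)) [Fintype V] (hA : MinimalStronglyBiconnected A)
    (h3 : 3 ≤ Fintype.card V) : A.card + 3 ≤ 2 * Fintype.card V := by
  obtain ⟨hl, ⟨hsc, hna⟩, hmin⟩ := hA
  rw [noArt_iff hl] at hna
  obtain ⟨H, hHA, hHB, hHS, hHc⟩ := spanning hsc hna hl h3
  have hHA' : H = A := by
    by_contra hne
    obtain ⟨e, heA, heH⟩ := Finset.exists_of_ssubset (Finset.ssubset_iff_subset_ne.2 ⟨hHA, hne⟩)
    have hsub : H ⊆ A.erase e := by
      intro x hx
      rw [Finset.mem_erase]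
      exact ⟨fun h => heH (h ▸ hx), hHA hx⟩
    apply hmin e heA
    refine ⟨?_, ?_⟩
    · intro u w
      have h1 : (fun x y => (x, y) ∈ H) ≤ (fun x y => (x, y) ∈ A.erase e) :=
        fun x y h => hsub h
      exact ReflTransGen.mono h1 _ _ (hHS u w)
    · rw [noArt_iff (fun v h => hl v (Finset.mem_of_mem_erase h))]
      intro z a b haz hbz
      have h1 : adj H z ≤ adj (A.erase e) z := fun x y h => adj_mono hsub z h
      exact ReflTransGen.mono h1 _ _ (hHB z a b haz hbz)
  rw [← hHA']
  exact hHc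

end

/-! ### Sharpness -/

/-- the arcs `0 → 1` and `1 → i → 0` for the `m` other vertices `i` -/
def ex (m : ℕ) : Finset (Fin (m + 2) × Fin (m + 2)) :=
  {(0, 1)} ∪ ((Finset.univ : Finset (Fin m)).image (fun i => ((1 : Fin (m + 2)), i.succ.succ)) ∪
    (Finset.univ : Finset (Fin m)).image (fun i => (i.succ.succ, (0 : Fin (m + 2)))))

lemma mem_ex {m : ℕ} (x y : Fin (m + 2)) : (x, y) ∈ ex m ↔
    (x = 0 ∧ y = 1) ∨ (∃ i : Fin m, x = 1 ∧ y = i.succ.succ) ∨ (∃ i : Fin m, x = i.succ.succ ∧ y = 0) := by
  unfold ex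
  simp only [Finset.mem_union, Finset.mem_singleton, Prod.mk.injEq, Finset.mem_image,
    Finset.mem_univ, true_and]
  constructor
  · rintro (h | ⟨i, h1, h2⟩ | ⟨i, h1, h2⟩)
    · exact Or.inl h
    · exact Or.inr (Or.inl ⟨i, h1.symm, h2.symm⟩)
    · exact Or.inr (Or.inr ⟨i, h1.symm, h2.symm⟩)
  · rintro (h | ⟨i, h1, h2⟩ | ⟨i, h1, h2⟩)
    · exact Or.inl h
    · exact Or.inr (Or.inl ⟨i, h1.symm, h2.symm⟩)
    · exact Or.inr (Or.inr ⟨i, h1.symm, h2.symm⟩)

lemma ss_ne_zero {m : ℕ} (i : Fin m) : i.succ.succ ≠ (0 : Fin (m + 2)) := Fin.succ_ne_zero _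

lemma ss_ne_one {m : ℕ} (i : Fin m) : i.succ.succ ≠ (1 : Fin (m + 2)) := by
  intro h
  have := congrArg Fin.val h
  simp at this

lemma cases3 {m : ℕ} (x : Fin (m + 2)) : x = 0 ∨ x = 1 ∨ ∃ i : Fin m, x = i.succ.succ := by
  refine Fin.cases (Or.inl rfl) (fun y => ?_) x
  refine Fin.cases (Or.inr (Or.inl rfl)) (fun i => Or.inr (Or.inr ⟨i, rfl⟩)) y

lemma ex_card (m : ℕ) : (ex m).card = 2 * (m + 2) - 3 := by
  unfold ex
  rw [Finset.card_union_of_disjoint, Finset.card_union_of_disjoint, Finset.card_image_of_injective,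
    Finset.card_image_of_injective, Finset.card_singleton, Finset.card_univ, Fintype.card_fin]
  · omega
  · intro i j h
    simpa using h
  · intro i j h
    simpa using h
  · rw [Finset.disjoint_left]
    intro x hx hy
    simp only [Finset.mem_image, Finset.mem_univ, true_and] at hx hy
    obtain ⟨i, rfl⟩ := hx
    obtain ⟨j, hj⟩ := hy
    exact ss_ne_one j (Prod.mk.inj hj).1
  · rw [Finset.disjoint_left]
    intro x hx hy
    simp only [Finset.mem_singleton] at hx
    subst hx
    simp only [Finset.mem_union, Finset.mem_image, Finset.mem_univ, true_and, Prod.mk.injEq] at hy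
    rcases hy with ⟨i, hi, -⟩ | ⟨i, hi, -⟩
    · exact one_ne_zero hi
    · exact ss_ne_zero i hi

lemma no_out {V : Type} {r : V → V → Prop} {u w : V} (h : ∀ y, ¬ r u y) (huw : u ≠ w) :
    ¬ ReflTransGen r u w := by
  intro h1
  rcases ReflTransGen.cases_head h1 with h2 | ⟨c, h2, _⟩
  · exact huw h2
  · exact h c h2

lemma no_in {V : Type} {r : V → V → Prop} {u w : V} (h : ∀ y, ¬ r y w) (huw : u ≠ w) :
    ¬ ReflTransGen r u w := by
  intro h1
  rcases ReflTransGen.cases_tail h1 with h2 | ⟨c, _, h2⟩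
  · exact huw h2.symm
  · exact h c h2

lemma ex_minimal (m : ℕ) (hm : 1 ≤ m) : MinimalStronglyBiconnected (ex m) := by
  have h01 : (0 : Fin (m + 2)) ≠ 1 := zero_ne_one
  have hl : ∀ v, (v, v) ∉ ex m := by
    intro v hv
    rw [mem_ex] at hv
    rcases hv with ⟨h1, h2⟩ | ⟨i, h1, h2⟩ | ⟨i, h1, h2⟩
    · exact h01 (h1.symm.trans h2)
    · exact ss_ne_one i (h2.symm.trans h1)
    · exact ss_ne_zero i (h1.symm.trans h2)
  have a01 : ((0 : Fin (m + 2)), (1 : Fin (m + 2))) ∈ ex m := (mem_ex _ _).2 (Or.inl ⟨rfl, rfl⟩)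
  have a1i : ∀ i : Fin m, ((1 : Fin (m + 2)), i.succ.succ) ∈ ex m := fun i =>
    (mem_ex _ _).2 (Or.inr (Or.inl ⟨i, rfl, rfl⟩))
  have ai0 : ∀ i : Fin m, (i.succ.succ, (0 : Fin (m + 2))) ∈ ex m := fun i =>
    (mem_ex _ _).2 (Or.inr (Or.inr ⟨i, rfl, rfl⟩))
  refine ⟨hl, ⟨?_, ?_⟩, ?_⟩
  · intro u w
    have h1 : ReflTransGen (fun x y => (x, y) ∈ ex m) u 0 := by
      rcases cases3 u with rfl | rfl | ⟨i, rfl⟩
      · exact .refl
      · exact (ReflTransGen.single (a1i ⟨0, hm⟩)).tail (ai0 ⟨0, hm⟩)
      · exact .single (ai0 i)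
    have h2 : ReflTransGen (fun x y => (x, y) ∈ ex m) 0 w := by
      rcases cases3 w with rfl | rfl | ⟨i, rfl⟩
      · exact .refl
      · exact .single a01
      · exact (ReflTransGen.single a01).tail (a1i i)
    exact h1.trans h2
  · rw [noArt_iff hl]
    intro z a b haz hbz
    have hc : ∃ c, ∀ a, a ≠ z → ReflTransGen (adj (ex m) z) a c := by
      by_cases hz : z = 0
      · refine ⟨1, fun a ha => ?_⟩
        rcases cases3 a with rfl | rfl | ⟨i, rfl⟩
        · exact absurd hz.symm ha
        · exact .refl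
        · exact .single ⟨Or.inr (a1i i), ha, by rw [hz]; exact h01.symm⟩
      · refine ⟨0, fun a ha => ?_⟩
        rcases cases3 a with rfl | rfl | ⟨i, rfl⟩
        · exact .refl
        · exact .single ⟨Or.inr a01, ha, Ne.symm hz⟩
        · exact .single ⟨Or.inl (ai0 i), ha, Ne.symm hz⟩
    obtain ⟨c, hc⟩ := hc
    exact (hc a haz).trans (rtg_symm _ _ (hc b hbz))
  · rintro ⟨x, y⟩ he ⟨hsc, -⟩
    rw [mem_ex] at he
    rcases he with ⟨rfl, rfl⟩ | ⟨i, rfl, rfl⟩ | ⟨i, rfl, rfl⟩
    · refine no_out ?_ h01 (hsc 0 1)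
      intro y hy
      rw [Finset.mem_erase, mem_ex] at hy
      rcases hy with ⟨hne, ⟨_, h2⟩ | ⟨i, h1, _⟩ | ⟨i, h1, _⟩⟩
      · exact hne (by rw [h2])
      · exact h01 h1
      · exact ss_ne_zero i h1.symm
    · refine no_in ?_ (ss_ne_zero i).symm (hsc 0 i.succ.succ)
      intro y hy
      rw [Finset.mem_erase, mem_ex] at hy
      rcases hy with ⟨hne, ⟨_, h2⟩ | ⟨j, h1, h2⟩ | ⟨j, _, h2⟩⟩
      · exact ss_ne_one i h2
      · exact hne (by rw [h1])
      · exact ss_ne_zero i h2
    · refine no_out ?_ (ss_ne_zero i) (hsc i.succ.succ 0)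
      intro y hy
      rw [Finset.mem_erase, mem_ex] at hy
      rcases hy with ⟨hne, ⟨h1, _⟩ | ⟨j, h1, _⟩ | ⟨j, h1, h2⟩⟩
      · exact ss_ne_zero i h1
      · exact ss_ne_one i h1
      · exact hne (by rw [h2])

/-- Every minimal strongly biconnected digraph on `n` vertices has at most `2 n` arcs; for `n ≥ 3`
it has at most `2 n - 3` arcs, and for every `n ≥ 3` this number is attained. -/
theorem result :
    (∀ (V : Type) [Fintype V] [DecidableEq V] (A : Finset (V × V)),
      MinimalStronglyBiconnected A → A.card ≤ 2 * Fintype.card V) ∧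
    (∀ (V : Type) [Fintype V] [DecidableEq V] (A : Finset (V × V)), 3 ≤ Fintype.card V →
      MinimalStronglyBiconnected A → A.card ≤ 2 * Fintype.card V - 3) ∧
    (∀ n : ℕ, 3 ≤ n → ∃ A : Finset (Fin n × Fin n),
      MinimalStronglyBiconnected A ∧ A.card = 2 * n - 3) := by
  refine ⟨?_, ?_, ?_⟩
  · intro V _ _ A hA
    rcases Nat.lt_or_ge (Fintype.card V) 3 with h | h
    · have h1 : A ⊆ (Finset.univ : Finset V).offDiag := by
        rintro ⟨x, y⟩ hxy
        rw [Finset.mem_offDiag]
        refine ⟨Finset.mem_univ _, Finset.mem_univ _, fun he => ?_⟩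
        have he' : x = y := he
        subst he'
        exact hA.loopless _ hxy
      have h2 := Finset.card_le_card h1
      rw [Finset.offDiag_card, Finset.card_univ] at h2
      have h3 : Fintype.card V * Fintype.card V ≤ 2 * Fintype.card V :=
        Nat.mul_le_mul_right _ (by omega)
      omega
    · have := bound A hA h
      omega
  · intro V _ _ A h hA
    have := bound A hA h
    omega
  · intro n hn
    obtain ⟨m, rfl⟩ : ∃ m, n = m + 2 := ⟨n - 2, by omega⟩
    exact ⟨ex m, ex_minimal m (by omega), ex_card m⟩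

end Pool.Agent.Results.MP_5e4462_co.Sharp
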